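import Mathlib

namespace Pool.Agent.Results.MP_6f4f36_nt.Ternary

open Polynomial Finset

open Classical in
/-- The ternary partitions of `n`: all parts are powers of `3`. -/
noncomputable def T (n : ℕ) : Finset (Nat.Partition n) :=
  Finset.univ.filter fun l => ∀ i ∈ l.parts, ∃ j : ℕ, i = 3 ^ j

/-- The polynomial `h_l(x) = prod_{i=1}^n (1+x^i)^(floor(n/i) - m_l(i))`. -/
noncomputable def h (n : ℕ) (l : Nat.Partition n) : ℤ[X] :=
  ∏ i ∈ Icc 1 n, (1 + X ^ i) ^ (n / i - l.parts.count i)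

/-- `G` is a monic greatest common divisor in `Z[x]` of the `h_l`, `l` ternary. -/
def IsMonicGcd (n : ℕ) (G : ℤ[X]) : Prop :=
  G.Monic ∧ (∀ l ∈ T n, G ∣ h n l) ∧ ∀ d : ℤ[X], (∀ l ∈ T n, d ∣ h n l) → d ∣ G

/-- `s` is the value at `-1` of `num(n,x) = (sum_l h_l) / G`. -/
def IsS (n : ℕ) (s : ℤ) : Prop :=
  ∃ G N : ℤ[X], IsMonicGcd n G ∧ G * N = ∑ l ∈ T n, h n l ∧ N.eval (-1) = s

noncomputable def ph : ℕ → ℤ[X]
  | 0 => 1 + X
  | j + 1 => 1 - X ^ 3 ^ j + (X ^ 3 ^ j) ^ 2

lemma u_eq (j : ℕ) : (1 + X ^ 3 ^ j : ℤ[X]) = ∏ i ∈ range (j + 1), ph i := by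
  induction j with
  | zero => simp [ph]
  | succ j ih =>
    rw [prod_range_succ, ← ih, ph, pow_succ 3 j, pow_mul]
    ring

lemma u_monic {i : ℕ} (hi : 0 < i) : (1 + X ^ i : ℤ[X]).Monic := by
  rw [add_comm, ← C_1]
  exact monic_X_pow_add_C _ hi.ne'

lemma ph_dvd {i j : ℕ} (hij : i ≤ j) : ph i ∣ 1 + X ^ 3 ^ j := by
  rw [u_eq]
  exact dvd_prod_of_mem _ (by simp; omega)

lemma ph_monic (j : ℕ) : (ph j).Monic := by
  rcases j with _ | j
  · simpa [ph] using u_monic (i := 1) one_pos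
  · have h1 := u_monic (i := 3 ^ (j + 1)) (by positivity)
    rw [u_eq, prod_range_succ, ← u_eq] at h1
    exact (u_monic (i := 3 ^ j) (by positivity)).of_mul_monic_left h1

lemma cop {q : ℤ[X]} (hq : Prime q) {i j : ℕ} (hij : i < j) (hi : q ∣ ph i) (hj : q ∣ ph j) :
    False := by
  obtain ⟨j, rfl⟩ : ∃ k, j = k + 1 := ⟨j - 1, by omega⟩
  have h1 : q ∣ 1 + X ^ 3 ^ j := hi.trans (ph_dvd (by omega))
  have h3 : q ∣ C 3 := by
    have e : (C 3 : ℤ[X]) = ph (j + 1) - (1 + X ^ 3 ^ j) * (X ^ 3 ^ j - 2) := by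
      rw [ph, show (C 3 : ℤ[X]) = 3 from rfl]
      ring
    rw [e]
    exact dvd_sub hj (h1.mul_right _)
  have hd : q.natDegree = 0 := by
    have := natDegree_le_of_dvd h3 (by simp)
    simpa using this
  have hl : q.leadingCoeff ∣ 1 := by
    have := leadingCoeff_dvd_leadingCoeff hi
    rwa [(ph_monic i).leadingCoeff] at this
  apply hq.not_isUnit
  rw [eq_C_of_natDegree_eq_zero hd, isUnit_C]
  rw [leadingCoeff, hd] at hl
  exact isUnit_of_dvd_one hl

def e (s : Multiset ℕ) (j : ℕ) : ℕ := (s.filter fun a => 3 ^ j ≤ a).card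

lemma sp_eq (K : ℕ) (s : Multiset ℕ) (hs : ∀ i ∈ s, ∃ j : ℕ, j < K ∧ i = 3 ^ j) :
    (s.map fun i => (1 + X ^ i : ℤ[X])).prod = ∏ j ∈ range K, ph j ^ e s j := by
  induction s using Multiset.induction_on with
  | empty => simp [e]
  | cons a s ih =>
    obtain ⟨k, hk, rfl⟩ := hs a (Multiset.mem_cons_self _ _)
    rw [Multiset.map_cons, Multiset.prod_cons, ih fun i hi => hs i (Multiset.mem_cons_of_mem hi),
      u_eq]
    have e1 : range (k + 1) = (range K).filter fun j => j ≤ k := by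
      ext j
      simp
      omega
    rw [e1, prod_filter, ← prod_mul_distrib]
    refine prod_congr rfl fun j _ => ?_
    unfold e
    by_cases hj : j ≤ k
    · rw [if_pos hj, Multiset.filter_cons_of_pos _ (Nat.pow_le_pow_right (by norm_num) hj),
        Multiset.card_cons, pow_succ]
      ring
    · rw [if_neg hj, Multiset.filter_cons_of_neg _
        (not_le.mpr (Nat.pow_lt_pow_right (by norm_num) (by omega))), one_mul]

lemma sum_mono {s t : Multiset ℕ} (hst : s ≤ t) : s.sum ≤ t.sum := by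
  obtain ⟨u, rfl⟩ := Multiset.le_iff_exists_add.mp hst
  simp

lemma e_le (s : Multiset ℕ) (j : ℕ) : e s j ≤ s.sum / 3 ^ j := by
  rw [Nat.le_div_iff_mul_le (by positivity)]
  have h1 := Multiset.card_nsmul_le_sum (s := s.filter fun a => 3 ^ j ≤ a) (a := 3 ^ j)
    (fun x hx => (Multiset.mem_filter.mp hx).2)
  have h2 := sum_mono (Multiset.filter_le (fun a => 3 ^ j ≤ a) s)
  exact le_trans (by simpa [e] using h1) h2

lemma cnt_le (s : Multiset ℕ) {i : ℕ} (hi : 0 < i) : s.count i ≤ s.sum / i := by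
  rw [Nat.le_div_iff_mul_le hi]
  have h2 := sum_mono (Multiset.le_count_iff_replicate_le.mp (le_refl (s.count i)))
  simpa using h2

noncomputable def D (n : ℕ) : ℤ[X] := ∏ i ∈ Icc 1 n, (1 + X ^ i) ^ (n / i)
noncomputable def L (n : ℕ) : ℤ[X] := ∏ j ∈ range (n + 1), ph j ^ (n / 3 ^ j)
noncomputable def c (n : ℕ) (l : Nat.Partition n) : ℤ[X] :=
  ∏ j ∈ range (n + 1), ph j ^ (n / 3 ^ j - e l.parts j)

lemma L_dvd (n : ℕ) : L n ∣ D n := by
  have h1 : L n ∣ ∏ j ∈ range (n + 1), (1 + X ^ 3 ^ j : ℤ[X]) ^ (n / 3 ^ j) :=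
    prod_dvd_prod_of_dvd _ _ fun j _ => pow_dvd_pow_of_dvd (ph_dvd le_rfl) _
  refine h1.trans ?_
  rw [← prod_filter_of_ne (p := fun j => 3 ^ j ≤ n) (fun j _ hne => by
    by_contra hlt
    exact hne (by rw [Nat.div_eq_of_lt (by omega), pow_zero]))]
  rw [← prod_image (s := (range (n + 1)).filter fun j => 3 ^ j ≤ n) (g := fun j => 3 ^ j)
    (f := fun i => (1 + X ^ i : ℤ[X]) ^ (n / i))
    (fun a _ b _ hab => Nat.pow_right_injective (by norm_num : 2 ≤ 3) hab)]
  refine prod_dvd_prod_of_subset _ _ _ fun i hi => ?_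
  obtain ⟨j, hj, rfl⟩ := mem_image.mp hi
  exact mem_Icc.mpr ⟨Nat.one_le_pow _ _ (by norm_num), (mem_filter.mp hj).2⟩

lemma h_mul (n : ℕ) (l : Nat.Partition n) :
    h n l * (l.parts.map fun i => (1 + X ^ i : ℤ[X])).prod = D n := by
  rw [Finset.prod_multiset_map_count, h, D,
    prod_subset (s₁ := l.parts.toFinset) (s₂ := Icc 1 n) (fun i hi => by
      have hi' := Multiset.mem_toFinset.mp hi
      exact mem_Icc.mpr ⟨l.parts_pos hi', l.le_of_mem_parts hi'⟩)
    (fun i _ hi => by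
      rw [Multiset.count_eq_zero_of_notMem (fun hh => hi (Multiset.mem_toFinset.mpr hh)), pow_zero]),
    ← prod_mul_distrib]
  refine prod_congr rfl fun i hi => ?_
  have := cnt_le l.parts (mem_Icc.mp hi).1
  rw [l.parts_sum] at this
  rw [← pow_add, Nat.sub_add_cancel this]

lemma mem_T {n : ℕ} {l : Nat.Partition n} : l ∈ T n ↔ ∀ i ∈ l.parts, ∃ j : ℕ, i = 3 ^ j := by
  simp [T]

lemma h_eq {n : ℕ} {G : ℤ[X]} (hG : D n = L n * G) {l : Nat.Partition n} (hl : l ∈ T n) :
    h n l = G * c n l := by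
  have h1 := h_mul n l
  rw [sp_eq (n + 1) _ (fun i hi => by
    obtain ⟨j, rfl⟩ := mem_T.mp hl i hi
    have := l.le_of_mem_parts hi
    have := Nat.lt_pow_self (n := j) (by norm_num : 1 < 3)
    exact ⟨j, by omega, rfl⟩)] at h1
  have h2 : c n l * ∏ j ∈ range (n + 1), ph j ^ e l.parts j = L n := by
    rw [c, L, ← prod_mul_distrib]
    refine prod_congr rfl fun j _ => ?_
    have := e_le l.parts j
    rw [l.parts_sum] at this
    rw [← pow_add, Nat.sub_add_cancel this]
  have h3 : ∏ j ∈ range (n + 1), ph j ^ e l.parts j ≠ 0 :=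
    prod_ne_zero_iff.mpr fun j _ => pow_ne_zero _ (ph_monic j).ne_zero
  apply mul_right_cancel₀ h3
  rw [h1, hG, ← h2]
  ring

def lam (n j : ℕ) : Nat.Partition n where
  parts := Multiset.replicate (n / 3 ^ j) (3 ^ j) + Multiset.replicate (n % 3 ^ j) 1
  parts_pos := by
    intro i hi
    rcases Multiset.mem_add.mp hi with h1 | h1
    · rw [Multiset.eq_of_mem_replicate h1]
      positivity
    · rw [Multiset.eq_of_mem_replicate h1]
      exact one_pos
  parts_sum := by
    simp [Nat.div_add_mod']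

lemma lam_mem (n j : ℕ) : lam n j ∈ T n := by
  rw [mem_T]
  intro i hi
  rcases Multiset.mem_add.mp hi with h1 | h1
  · exact ⟨j, Multiset.eq_of_mem_replicate h1⟩
  · exact ⟨0, Multiset.eq_of_mem_replicate h1⟩

lemma lam_e (n j : ℕ) : n / 3 ^ j - e (lam n j).parts j = 0 := by
  have : n / 3 ^ j ≤ e (lam n j).parts j := by
    unfold e lam
    rw [Multiset.filter_add, Multiset.card_add, Multiset.filter_eq_self.mpr
      (fun a ha => (Multiset.eq_of_mem_replicate ha).ge), Multiset.card_replicate]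
    omega
  omega

lemma gcd_unit (n : ℕ) : IsUnit ((T n).gcd (c n)) := by
  by_contra hu
  have h0 : (T n).gcd (c n) ≠ 0 := fun h0 => by
    have := Finset.gcd_dvd (f := c n) (lam_mem n 0)
    rw [h0, zero_dvd_iff] at this
    exact prod_ne_zero_iff.mpr (fun j _ => pow_ne_zero _ (ph_monic j).ne_zero) this
  obtain ⟨q, hq, hd⟩ := WfDvdMonoid.exists_irreducible_factor hu h0
  have hp : Prime q := hq.prime
  have key : ∀ j, ∃ i, i ≠ j ∧ q ∣ ph i := fun j => by
    obtain ⟨i, _, hi⟩ := (hp.dvd_finsetProd_iff _).mp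
      (hd.trans (Finset.gcd_dvd (f := c n) (lam_mem n j)))
    refine ⟨i, fun hij => ?_, hp.dvd_of_dvd_pow hi⟩
    rw [hij, lam_e, pow_zero] at hi
    exact hp.not_dvd_one hi
  obtain ⟨i, _, hi⟩ := key 0
  obtain ⟨j, hji, hj⟩ := key i
  rcases lt_or_gt_of_ne hji with h1 | h1
  · exact cop hp h1 hj hi
  · exact cop hp h1 hi hj

lemma ev (n : ℕ) : (∑ l ∈ T n, c n l).eval (-1) = 3 ^ padicValNat 3 n.factorial := by
  have hl0 : (lam n 0).parts = Multiset.replicate n 1 := by simp [lam, Nat.mod_one]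
  rw [eval_finsetSum, sum_eq_single (lam n 0)]
  · rw [c, eval_prod, prod_range_succ', lam_e, pow_zero, eval_one, mul_one]
    have : Fact (Nat.Prime 3) := ⟨Nat.prime_three⟩
    rw [padicValNat_factorial (b := n + 1) (Nat.lt_succ_of_le (Nat.log_le_self _ _)),
      sum_Ico_eq_sum_range, ← prod_pow_eq_pow_sum, Nat.add_sub_cancel]
    refine prod_congr rfl fun j _ => ?_
    have e0 : e (lam n 0).parts (j + 1) = 0 := by
      rw [e, hl0, Multiset.card_eq_zero, Multiset.filter_eq_nil]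
      intro a ha
      rw [Multiset.eq_of_mem_replicate ha]
      exact not_le.mpr (Nat.one_lt_pow (by omega) (by norm_num))
    have ho : ((-1 : ℤ)) ^ 3 ^ j = -1 := Odd.neg_one_pow (Odd.pow (by decide))
    rw [e0, eval_pow, Nat.sub_zero, add_comm 1 j]
    simp [ph, ho]
  · intro l _ hne
    have hlt : e l.parts 0 < n := by
      by_contra hge
      apply hne
      have hc : n ≤ l.parts.card :=
        le_trans (not_lt.mp hge) (Multiset.card_le_card (Multiset.filter_le _ _))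
      have hall : ∀ a ∈ l.parts, a = 1 := fun a ha => by
        obtain ⟨t, ht⟩ := Multiset.exists_cons_of_mem ha
        have h1 := Multiset.card_nsmul_le_sum (s := t) (a := 1)
          (fun x hx => l.parts_pos (by rw [ht]; exact Multiset.mem_cons_of_mem hx))
        have h2 := l.parts_sum
        have h3 := l.parts_pos ha
        rw [ht] at h2 hc
        simp at h1 h2 hc
        omega
      have h4 := Multiset.eq_replicate_card.mpr hall
      have h5 := l.parts_sum
      rw [h4] at h5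
      simp at h5
      ext1
      rw [hl0, h4, h5]
    rw [c, eval_prod, prod_range_succ', eval_pow]
    have : n / 3 ^ 0 - e l.parts 0 ≠ 0 := by
      simp
      omega
    have h0 : (ph 0).eval (-1) = 0 := by simp [ph]
    rw [h0, zero_pow this, mul_zero]
  · intro hn
    exact absurd (lam_mem n 0) hn

theorem result (n : ℕ) (_hn : 1 ≤ n) (s : ℤ) :
    IsS n s ↔ s = 3 ^ padicValNat 3 (3 * (n / 3)).factorial := by
  have : Fact (Nat.Prime 3) := ⟨Nat.prime_three⟩
  have hv : padicValNat 3 (3 * (n / 3)).factorial = padicValNat 3 n.factorial := by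
    rw [← padicValNat_factorial_mul_add (p := 3) (n / 3)
      (show n % 3 < 3 from Nat.mod_lt _ (by norm_num)), Nat.div_add_mod]
  rw [hv]
  obtain ⟨G, hG⟩ := L_dvd n
  have hDm : (D n).Monic := monic_prod_of_monic _ _ fun i hi => (u_monic (mem_Icc.mp hi).1).pow _
  have hLm : (L n).Monic := monic_prod_of_monic _ _ fun j _ => (ph_monic j).pow _
  have hGm : G.Monic := hLm.of_mul_monic_left (hG ▸ hDm)
  have hsum : G * ∑ l ∈ T n, c n l = ∑ l ∈ T n, h n l := by
    rw [mul_sum]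
    exact sum_congr rfl fun l hl => (h_eq hG hl).symm
  have hgcd : IsMonicGcd n G := by
    refine ⟨hGm, fun l hl => ⟨_, h_eq hG hl⟩, fun d hd => ?_⟩
    have h1 : d ∣ (T n).gcd fun l => G * c n l :=
      Finset.dvd_gcd fun l hl => by rw [← h_eq hG hl]; exact hd l hl
    rw [Finset.gcd_mul_left, (gcd_unit n).dvd_mul_right] at h1
    exact dvd_normalize_iff.mp h1
  constructor
  · rintro ⟨G', N, hG', hN, rfl⟩
    have e1 : G' = G := eq_of_monic_of_associated hG'.1 hGm
      (associated_of_dvd_dvd (hgcd.2.2 _ hG'.2.1) (hG'.2.2 _ hgcd.2.1))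
    rw [e1, ← hsum] at hN
    rw [mul_left_cancel₀ hGm.ne_zero hN, ev]
  · rintro rfl
    exact ⟨G, _, hgcd, hsum, ev n⟩

end Pool.Agent.Results.MP_6f4f36_nt.Ternary
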